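import Mathlib
import Pool.Agent.Y298.LC.Stm2
import Pool.Agent.Y405.TY.Dist

/-!
# Project LC, statement CEI: univalence of the critical orbit maps near a typical parameter
-/

set_option autoImplicit false

open Set Filter Metric MeasureTheory Topology Complex Bornology

namespace Pool.Agent.Y232.LC2

open Pool.Agent.H712R2 Pool.Agent.H713R2 Pool.Agent.Y272.TY Pool.Agent.W677.Mar

/-- two-sided bound for the logarithm of the derivatives -/
theorem two_sided {d : ℕ} (hd : 2 ≤ d) {β : ℂ → ℂ} {θ : ℝ} {c0 : ℂ} {A : ℝ} {R : ℂ}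
    (h : Typ d β θ c0 A R) {ε : ℝ} (hε : 0 < ε) : ∃ K : ℝ, 0 ≤ K ∧ ∀ n : ℕ,
      n * (Real.log d - ε) - K ≤ Real.log ‖MM d c0 (n + 1)‖ ∧
      Real.log ‖MM d c0 (n + 1)‖ ≤ n * (Real.log d + ε) + K := by
  obtain ⟨A', hA', hs⟩ := h.sumg hd
  have hA0 : 0 ≤ A' := h.A0.trans hA'
  have hd2 : (2 : ℝ) ≤ d := by exact_mod_cast hd
  have h4 : ∀ᶠ n : ℕ in atTop, gg n / n < ε / (d * (A' + 1)) :=
    gg_lim.eventually (gt_mem_nhds (by positivity))
  obtain ⟨N, hN⟩ := eventually_atTop.1 (h4.and (eventually_ge_atTop 1))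
  have hggN : 0 ≤ gg N := by linarith [log_two_le N, log_le_gg N]
  refine ⟨d * (A' + 1) * gg N, by positivity, fun n => ?_⟩
  rw [log_MM hd c0 n fun j _ => h.P_ne j]
  have h10 := (abs_le.1 (hs n)).1
  have h10' := (abs_le.1 (hs n)).2
  have hgn : 0 ≤ gg n := by linarith [log_two_le n, log_le_gg n]
  have h11 : ((d : ℝ) - 1) * (A' * gg n) ≤ d * (A' + 1) * gg n := by
    have h12 : ((d : ℝ) - 1) * A' ≤ d * (A' + 1) := by nlinarith
    calc ((d : ℝ) - 1) * (A' * gg n) = (((d : ℝ) - 1) * A') * gg n := by ring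
      _ ≤ _ := mul_le_mul_of_nonneg_right h12 hgn
  have h13 : ((d : ℝ) - 1) * -(A' * gg n) ≤
      ((d : ℝ) - 1) * ∑ n ∈ Finset.range n, Real.log ‖P d (n + 1) c0‖ :=
    mul_le_mul_of_nonneg_left h10 (by linarith)
  have h13' : ((d : ℝ) - 1) * ∑ n ∈ Finset.range n, Real.log ‖P d (n + 1) c0‖ ≤
      ((d : ℝ) - 1) * (A' * gg n) :=
    mul_le_mul_of_nonneg_left h10' (by linarith)
  have h14 : d * (A' + 1) * gg n ≤ n * ε + d * (A' + 1) * gg N := by
    rcases le_or_gt n N with hn | hn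
    · have : d * (A' + 1) * gg n ≤ d * (A' + 1) * gg N :=
        mul_le_mul_of_nonneg_left (gg_mono hn) (by positivity)
      have h0 : 0 ≤ (n : ℝ) * ε := by positivity
      linarith
    · obtain ⟨h15, h16⟩ := hN n hn.le
      have hn1 : (1 : ℝ) ≤ n := by exact_mod_cast h16
      rw [div_lt_div_iff₀ (by linarith) (by positivity)] at h15
      have h0 : 0 ≤ d * (A' + 1) * gg N := by positivity
      nlinarith
  constructor <;> nlinarith

/-- variation of the derivative -/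
theorem deriv_var {f : ℂ → ℂ} (hf : Differentiable ℂ f) {c0 : ℂ} {r1 M : ℝ} (hr1 : 0 < r1)
    (hM : ∀ c ∈ ball c0 r1, ‖f c - f c0‖ ≤ M) {c : ℂ} (hc : c ∈ ball c0 (r1 / 4)) :
    ‖deriv f c - deriv f c0‖ ≤ 16 * M / r1 ^ 2 * ‖c - c0‖ := by
  have hr4 : 0 < r1 / 4 := by positivity
  have h1 : ∀ z ∈ ball c0 (r1 / 2 + r1 / 8), ‖deriv f z‖ ≤ M / (r1 / 4) := by
    intro z hz
    have hg : Differentiable ℂ (fun w => f w - f c0) := hf.sub_const _
    have e1 : deriv (fun w => f w - f c0) z = deriv f z := deriv_sub_const _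
    rw [← e1]
    refine Complex.norm_deriv_le_of_forall_mem_sphere_norm_le hr4 hg.diffContOnCl fun w hw => ?_
    refine hM w ?_
    rw [mem_sphere] at hw
    rw [mem_ball] at hz ⊢
    linarith [dist_triangle w z c0]
  have hf' : Differentiable ℂ (deriv f) := by
    intro z
    exact ((hf.differentiableOn (s := univ)).deriv isOpen_univ).differentiableAt univ_mem
  have h2 : ∀ z ∈ ball c0 (r1 / 4), ‖deriv (deriv f) z‖ ≤ 16 * M / r1 ^ 2 := by
    intro z hz
    have e2 : 16 * M / r1 ^ 2 = M / (r1 / 4) / (r1 / 4) := by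
      field_simp
      ring
    rw [e2]
    refine Complex.norm_deriv_le_of_forall_mem_sphere_norm_le hr4 hf'.diffContOnCl fun w hw => ?_
    refine h1 w ?_
    rw [mem_sphere] at hw
    rw [mem_ball] at hz ⊢
    linarith [dist_triangle w z c0]
  exact Convex.norm_image_sub_le_of_norm_deriv_le (𝕜 := ℂ) (fun z _ => hf' z) h2
    (convex_ball c0 (r1 / 4)) (mem_ball_self hr4) hc

/-- logarithms and constants are negligible -/
theorem ev (C B a : ℝ) (ha : 0 < a) :
    ∀ᶠ n : ℕ in atTop, C * Real.log ((n : ℝ) + 2) + B ≤ a * n := by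
  have h1 : ∀ᶠ x : ℝ in atTop, |Real.log x| ≤ a / (2 * (|C| + 1)) * |x| := by
    have := Real.isLittleO_log_id_atTop.def (show 0 < a / (2 * (|C| + 1)) by positivity)
    simpa [Real.norm_eq_abs] using this
  have h2 : Tendsto (fun n : ℕ => (n : ℝ) + 2) atTop atTop :=
    tendsto_atTop_add_const_right _ _ tendsto_natCast_atTop_atTop
  have h3 := h2.eventually h1
  have h4 : ∀ᶠ n : ℕ in atTop, (2 * (B + a)) / a ≤ (n : ℝ) :=
    tendsto_natCast_atTop_atTop.eventually (eventually_ge_atTop _)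
  filter_upwards [h3, h4] with n h5 h6
  have hn : (0 : ℝ) ≤ n := Nat.cast_nonneg n
  rw [div_le_iff₀ ha] at h6
  rw [abs_of_nonneg (show (0 : ℝ) ≤ (n : ℝ) + 2 by linarith)] at h5
  have h7 : C * Real.log ((n : ℝ) + 2) ≤ (|C| + 1) * |Real.log ((n : ℝ) + 2)| := by
    refine (le_abs_self _).trans ?_
    rw [abs_mul]
    exact mul_le_mul_of_nonneg_right (by linarith) (abs_nonneg _)
  have h8 : (|C| + 1) * |Real.log ((n : ℝ) + 2)| ≤
      (|C| + 1) * (a / (2 * (|C| + 1)) * ((n : ℝ) + 2)) :=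
    mul_le_mul_of_nonneg_left h5 (by positivity)
  have h9 : (|C| + 1) * (a / (2 * (|C| + 1)) * ((n : ℝ) + 2)) = a * ((n : ℝ) + 2) / 2 := by
    have : 0 < |C| + 1 := by positivity
    field_simp
  nlinarith

theorem ev_aa (η : ℝ) (hη : 0 < η) : ∀ᶠ l : ℕ in atTop, aa l ≤ η * ((l : ℝ) + 2) := by
  have h1 : ∀ᶠ x : ℝ in atTop, |Real.log x| ≤ η ^ 2 * |x| := by
    have := Real.isLittleO_log_id_atTop.def (show 0 < η ^ 2 by positivity)
    simpa [Real.norm_eq_abs] using this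
  have h2 : Tendsto (fun n : ℕ => (n : ℝ) + 2) atTop atTop :=
    tendsto_atTop_add_const_right _ _ tendsto_natCast_atTop_atTop
  filter_upwards [h2.eventually h1] with l hl
  have h0 : (0 : ℝ) ≤ l := Nat.cast_nonneg l
  rw [abs_of_nonneg (show (0 : ℝ) ≤ (l : ℝ) + 2 by linarith)] at hl
  unfold aa
  rw [Real.sqrt_le_left (by positivity)]
  have h3 : Real.log ((l : ℝ) + 2) ≤ η ^ 2 * ((l : ℝ) + 2) := (le_abs_self _).trans hl
  have h4 : ((l : ℝ) + 1) * Real.log ((l : ℝ) + 2) ≤ ((l : ℝ) + 2) * (η ^ 2 * ((l : ℝ) + 2)) := by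
    have h5 : 0 ≤ Real.log ((l : ℝ) + 2) := Real.log_nonneg (by linarith)
    have h6 : 0 ≤ η ^ 2 * ((l : ℝ) + 2) := by positivity
    nlinarith
  nlinarith

/-- part (6): landing along the ray is fast -/
theorem ray {d : ℕ} (hd : 2 ≤ d) {β : ℂ → ℂ} {θ : ℝ} {c₀ : ℂ} {A : ℝ} {R : ℂ}
    (h : Typ d β θ c₀ A R) {δ : ℝ} (hδ : 0 < δ) : ∀ᶠ n : ℕ in atTop,
    ∀ ρ : ℝ, 1 / 2 ≤ ρ → ρ < 1 → 1 - ρ ≤ Real.exp (-(n * (Real.log d + 2 * δ))) →
      ‖cc β (pt ρ θ) - c₀‖ ≤ Real.exp (-(n * (Real.log d + δ))) / 2 := by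
  have hd2 : (2 : ℝ) ≤ d := by exact_mod_cast hd
  have hlam : 0 < Real.log d := Real.log_pos (by linarith)
  have hA := h.A0
  obtain ⟨lam, hl⟩ : ∃ lam : ℝ, lam = Real.log d := ⟨_, rfl⟩
  rw [← hl] at hlam
  obtain ⟨κ, hκ⟩ : ∃ κ : ℝ, κ = (lam + 2 * δ) / lam := ⟨_, rfl⟩
  have hκ1 : 1 ≤ κ := by
    rw [hκ, le_div_iff₀ hlam]
    linarith
  have hκ0 : 0 < κ := by linarith
  obtain ⟨η, hη⟩ : ∃ η : ℝ, η = δ / (2 * κ * (A + 1)) := ⟨_, rfl⟩
  have hη0 : 0 < η := by rw [hη]; positivity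
  have hlt : Tendsto (fun n : ℕ => ⌊κ * (n : ℝ)⌋₊) atTop atTop :=
    tendsto_nat_floor_atTop.comp (tendsto_natCast_atTop_atTop.const_mul_atTop hκ0)
  have e1 := hlt.eventually (ev_aa η hη0)
  have e2 := ev 0 (2 * A * η + lam + Real.log 2) (δ / 2) (by positivity)
  filter_upwards [e1, e2] with n h1 h2 ρ hρ1 hρ2 hρ3
  rw [← hl] at hρ3 ⊢
  have hn0 : (0 : ℝ) ≤ n := Nat.cast_nonneg n
  obtain ⟨l, hll⟩ : ∃ l : ℕ, l = ⌊κ * (n : ℝ)⌋₊ := ⟨_, rfl⟩
  rw [← hll] at h1
  have hl1 : (l : ℝ) ≤ κ * n := by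
    rw [hll]
    exact Nat.floor_le (by positivity)
  have hl2 : κ * n < l + 1 := by
    rw [hll]
    exact Nat.lt_floor_add_one _
  have hdl : (d : ℝ) ^ l = Real.exp (l * lam) := by
    rw [mul_comm, Real.exp_mul, hl, Real.exp_log (by linarith), Real.rpow_natCast]
  have hκl : κ * lam = lam + 2 * δ := by
    rw [hκ]
    field_simp
  have e3 : (l : ℝ) * lam ≤ n * (lam + 2 * δ) := by
    calc (l : ℝ) * lam ≤ κ * n * lam := mul_le_mul_of_nonneg_right hl1 hlam.le
      _ = n * (κ * lam) := by ring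
      _ = _ := by rw [hκl]
  have e4 : (n : ℝ) * (lam + 2 * δ) - lam ≤ l * lam := by
    have : κ * n * lam ≤ (l + 1) * lam := mul_le_mul_of_nonneg_right hl2.le hlam.le
    have e5 : κ * n * lam = n * (lam + 2 * δ) := by
      rw [← hκl]
      ring
    linarith
  have h3 : (1 - ρ) * (d : ℝ) ^ l ≤ 4 := by
    rw [hdl]
    calc (1 - ρ) * Real.exp (l * lam) ≤
        Real.exp (-(n * (lam + 2 * δ))) * Real.exp (l * lam) :=
          mul_le_mul_of_nonneg_right hρ3 (Real.exp_pos _).le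
      _ = Real.exp (l * lam - n * (lam + 2 * δ)) := by
          rw [← Real.exp_add]
          congr 1
          ring
      _ ≤ 1 := by
          rw [Real.exp_le_one_iff]
          linarith
      _ ≤ 4 := by norm_num
  have h4 := h.rate l ρ hρ1 hρ2 h3
  rw [hdl] at h4
  have h5 : ‖cc β (pt ρ θ) - c₀‖ ≤ Real.exp (A * aa l - l * lam) := by
    rw [Real.exp_sub, le_div_iff₀ (Real.exp_pos _)]
    exact h4
  refine h5.trans ?_
  have h6 : Real.exp (-(n * (lam + δ))) / 2 = Real.exp (-(n * (lam + δ)) - Real.log 2) := by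
    rw [Real.exp_sub, Real.exp_log (by norm_num)]
  rw [h6, Real.exp_le_exp]
  have h7 : A * aa l ≤ A * (η * (κ * n + 2)) := by
    refine mul_le_mul_of_nonneg_left (h1.trans ?_) hA
    exact mul_le_mul_of_nonneg_left (by linarith) hη0.le
  have h8 : A * (η * (κ * n)) ≤ δ / 2 * n := by
    have : A * (η * (κ * n)) = (A / (A + 1)) * (δ / 2 * n) := by
      rw [hη]
      field_simp
    rw [this]
    have h9 : A / (A + 1) ≤ 1 := by
      rw [div_le_one (by linarith)]
      linarith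
    have h10 : 0 ≤ δ / 2 * n := by positivity
    nlinarith
  have h11 : A * (η * (κ * n + 2)) = A * (η * (κ * n)) + 2 * A * η := by ring
  nlinarith

theorem cei : Pool.Agent.Y298.LC.S_CEI := by
  intro d β θ c₀ A R hd hβ h δ hδ
  have hd2 : (2 : ℝ) ≤ d := by exact_mod_cast hd
  have hlam0 : 0 < Real.log d := Real.log_pos (by linarith)
  have hA := h.A0
  have hR := h.R0
  have hRn : 0 < ‖R‖ := norm_pos_iff.2 hR
  obtain ⟨ε, hε⟩ : ∃ ε : ℝ, ε = min (δ / 8) (Real.log d / 2) := ⟨_, rfl⟩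
  have hε0 : 0 < ε := by rw [hε]; positivity
  have hε1 : ε ≤ δ / 8 := by rw [hε]; exact min_le_left _ _
  have hε2 : ε ≤ Real.log d / 2 := by rw [hε]; exact min_le_right _ _
  obtain ⟨K, hK0, hK⟩ := two_sided hd h hε0
  -- the ratio
  have hlim : Tendsto (fun n : ℕ => ‖deriv (P d (n + 1)) c₀ / MM d c₀ (n + 1)‖) atTop (𝓝 ‖R‖) :=
    h.lim.norm
  have hr1 : ∀ᶠ n : ℕ in atTop, ‖R‖ / 2 < ‖deriv (P d (n + 1)) c₀ / MM d c₀ (n + 1)‖ :=
    hlim.eventually (lt_mem_nhds (by linarith))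
  have hr2 : ∀ᶠ n : ℕ in atTop, ‖deriv (P d (n + 1)) c₀ / MM d c₀ (n + 1)‖ < 2 * ‖R‖ :=
    hlim.eventually (gt_mem_nhds (by linarith))
  obtain ⟨B, hB⟩ : ∃ B : ℝ, B = Real.log 48 + Real.log d + Real.log 4 + 3 * K +
    |Real.log (‖R‖ / 4)| + |Real.log (‖R‖ / 2)| + |Real.log (2 * ‖R‖)| := ⟨_, rfl⟩
  have hev := ev (A + 3) B (δ / 4) (by positivity)
  filter_upwards [hr1, hr2, hev, ray hd h hδ] with n h1 h2 h3 h4
  obtain ⟨lam, hl⟩ : ∃ lam : ℝ, lam = Real.log d := ⟨_, rfl⟩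
  rw [← hl] at hlam0 hε2 hK hB h4 ⊢
  have hn0 : (0 : ℝ) ≤ n := Nat.cast_nonneg n
  obtain ⟨L, hL⟩ : ∃ L : ℝ, L = Real.log ((n : ℝ) + 2) := ⟨_, rfl⟩
  rw [← hL] at h3
  have hL0 : 0 ≤ L := by rw [hL]; exact Real.log_nonneg (by linarith)
  have hAL : 0 ≤ A * L := mul_nonneg hA hL0
  have hnd : 0 ≤ (n : ℝ) * δ := by positivity
  have hne : (n : ℝ) * ε ≤ n * (δ / 8) := mul_le_mul_of_nonneg_left hε1 hn0
  have hne0 : 0 ≤ (n : ℝ) * ε := by positivity
  have l48 : 0 ≤ Real.log 48 := Real.log_nonneg (by norm_num)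
  have l4 : 0 ≤ Real.log 4 := Real.log_nonneg (by norm_num)
  have a1 := abs_nonneg (Real.log (‖R‖ / 4))
  have a2 := abs_nonneg (Real.log (‖R‖ / 2))
  have a3 := abs_nonneg (Real.log (2 * ‖R‖))
  have b1 := neg_abs_le (Real.log (‖R‖ / 4))
  have b2 := neg_abs_le (Real.log (‖R‖ / 2))
  have b3 := le_abs_self (Real.log (2 * ‖R‖))
  have hMM : ∀ m : ℕ, MM d c₀ (m + 1) ≠ 0 := fun m => MM_ne_zero hd c₀ m fun j _ => h.P_ne j
  have hMp : ∀ m : ℕ, 0 < ‖MM d c₀ (m + 1)‖ := fun m => norm_pos_iff.2 (hMM m)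
  have hMlow : ∀ m : ℕ, Real.exp (m * (lam - ε) - K) ≤ ‖MM d c₀ (m + 1)‖ := fun m => by
    have := (hK m).1
    rwa [Real.le_log_iff_exp_le (hMp m)] at this
  have hMup : ∀ m : ℕ, ‖MM d c₀ (m + 1)‖ ≤ Real.exp (m * (lam + ε) + K) := fun m => by
    have := (hK m).2
    rwa [Real.log_le_iff_le_exp (hMp m)] at this
  -- the derivative of the parameter map
  rw [norm_div, lt_div_iff₀ (hMp n)] at h1
  rw [norm_div, div_lt_iff₀ (hMp n)] at h2
  have hDlow : Real.exp (n * (lam - ε) - K + Real.log (‖R‖ / 2)) ≤ ‖deriv (P d (n + 1)) c₀‖ := by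
    rw [Real.exp_add, Real.exp_log (by positivity), mul_comm]
    exact (mul_le_mul_of_nonneg_left (hMlow n) (by positivity)).trans h1.le
  have hDup : ‖deriv (P d (n + 1)) c₀‖ ≤ Real.exp (n * (lam + ε) + K + Real.log (2 * ‖R‖)) := by
    rw [Real.exp_add, Real.exp_log (by positivity), mul_comm]
    exact h2.le.trans (mul_le_mul_of_nonneg_left (hMup n) (by positivity))
  have hdit : deriv ((fc d c₀)^[n]) c₀ = MM d c₀ (n + 1) := (deriv_iter hd c₀ n).deriv
  refine ⟨?_, ?_, ?_, ?_, ?_, h4⟩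
  · -- the main point
    intro c hc
    obtain ⟨r1, hr1⟩ : ∃ r1 : ℝ, r1 = Real.exp (-(n * (lam + δ / 2))) := ⟨_, rfl⟩
    have hr1p : 0 < r1 := by rw [hr1]; exact Real.exp_pos _
    have hsum : ∀ j ∈ Finset.Icc 1 (n + 1), 3 * mm d c₀ j * (∑ i ∈ Finset.Icc 1 j, 1 / mm d c₀ i) ≤
        Real.exp (Real.log 3 + (n * (lam + ε) + K) + (L + K)) := by
      intro j hj
      rw [Finset.mem_Icc] at hj
      have hj1 : mm d c₀ j ≤ Real.exp (n * (lam + ε) + K) := by
        rw [mm_eq]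
        obtain ⟨m, rfl⟩ : ∃ m, j = m + 1 := ⟨j - 1, by omega⟩
        refine (hMup m).trans ?_
        rw [Real.exp_le_exp]
        have : (m : ℝ) ≤ n := by exact_mod_cast (by omega : m ≤ n)
        have h5 : (m : ℝ) * (lam + ε) ≤ n * (lam + ε) :=
          mul_le_mul_of_nonneg_right this (by linarith)
        linarith
      have hj2 : ∑ i ∈ Finset.Icc 1 j, 1 / mm d c₀ i ≤ Real.exp (L + K) := by
        have : ∀ i ∈ Finset.Icc 1 j, 1 / mm d c₀ i ≤ Real.exp K := by
          intro i hi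
          rw [Finset.mem_Icc] at hi
          rw [mm_eq]
          obtain ⟨m, rfl⟩ : ∃ m, i = m + 1 := ⟨i - 1, by omega⟩
          rw [div_le_iff₀ (hMp m)]
          have h6 := hMlow m
          have h7 : Real.exp K * Real.exp (m * (lam - ε) - K) = Real.exp (m * (lam - ε)) := by
            rw [← Real.exp_add]
            congr 1
            ring
          have h8 : 1 ≤ Real.exp (m * (lam - ε)) := by
            rw [Real.one_le_exp_iff]
            exact mul_nonneg (Nat.cast_nonneg m) (by linarith)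
          calc (1 : ℝ) ≤ Real.exp (m * (lam - ε)) := h8
            _ = Real.exp K * Real.exp (m * (lam - ε) - K) := h7.symm
            _ ≤ _ := mul_le_mul_of_nonneg_left h6 (Real.exp_pos _).le
        refine (Finset.sum_le_card_nsmul _ _ _ this).trans ?_
        rw [nsmul_eq_mul, Nat.card_Icc, Real.exp_add, hL, Real.exp_log (by linarith)]
        refine mul_le_mul_of_nonneg_right ?_ (Real.exp_pos _).le
        have : ((j + 1 - 1 : ℕ) : ℝ) ≤ ((n + 1 : ℕ) : ℝ) := by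
          exact_mod_cast (by omega : j + 1 - 1 ≤ n + 1)
        push_cast at this ⊢
        linarith
      have hs0 : 0 ≤ ∑ i ∈ Finset.Icc 1 j, 1 / mm d c₀ i := by
        refine Finset.sum_nonneg fun i _ => ?_
        rw [mm_eq]
        positivity
      rw [Real.exp_add, Real.exp_add, Real.exp_log (by norm_num)]
      refine mul_le_mul ?_ hj2 hs0 (by positivity)
      exact mul_le_mul_of_nonneg_left hj1 (by norm_num)
    have hmmp : ∀ j ∈ Finset.Icc 1 (n + 1), 0 < mm d c₀ j := by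
      intro j hj
      rw [Finset.mem_Icc] at hj
      rw [mm_eq]
      obtain ⟨m, rfl⟩ : ∃ m, j = m + 1 := ⟨j - 1, by omega⟩
      exact hMp m
    obtain ⟨M, hM⟩ : ∃ M : ℝ, M = Real.exp (Real.log 3 + (n * (lam + ε) + K) + (L + K)) * r1 :=
      ⟨_, rfl⟩
    have l3 : Real.log 3 ≤ Real.log 48 := Real.log_le_log (by norm_num) (by norm_num)
    have hbd : ∀ z ∈ ball c₀ r1, ‖P d (n + 1) z - P d (n + 1) c₀‖ ≤ M := by
      intro z hz
      rw [mem_ball_iff_norm] at hz
      have hyp : ∀ j ∈ Finset.Icc 1 (n + 1),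
          3 * mm d c₀ j * (∑ i ∈ Finset.Icc 1 j, 1 / mm d c₀ i) * ‖z - c₀‖ ≤
            ‖P d j c₀‖ / (d * ((j : ℝ) + 1) ^ 2) := by
        intro j hj
        have g1 := hsum j hj
        have g2 : 3 * mm d c₀ j * (∑ i ∈ Finset.Icc 1 j, 1 / mm d c₀ i) * ‖z - c₀‖ ≤ M := by
          rw [hM]
          exact mul_le_mul g1 hz.le (norm_nonneg _) (Real.exp_pos _).le
        refine g2.trans ?_
        rw [Finset.mem_Icc] at hj
        obtain ⟨m, rfl⟩ : ∃ m, j = m + 1 := ⟨j - 1, by omega⟩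
        have hmn : (m : ℝ) ≤ n := by exact_mod_cast (by omega : m ≤ n)
        have hm0 : (0 : ℝ) ≤ m := Nat.cast_nonneg m
        have g3 : Real.exp (-(A * L)) ≤ ‖P d (m + 1) c₀‖ := by
          refine le_trans ?_ (h.rec' m)
          rw [Real.exp_le_exp, neg_le_neg_iff, hL]
          exact mul_le_mul_of_nonneg_left (Real.log_le_log (by linarith) (by linarith)) hA
        have g4 : (d : ℝ) * (((m + 1 : ℕ) : ℝ) + 1) ^ 2 ≤ Real.exp (lam + 2 * L) := by
          have e1 : Real.exp (lam + 2 * L) = d * ((n : ℝ) + 2) ^ 2 := by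
            rw [Real.exp_add, hl, Real.exp_log (by linarith), two_mul, Real.exp_add, hL,
              Real.exp_log (by linarith)]
            ring
          rw [e1]
          push_cast
          have : (m : ℝ) + 1 + 1 ≤ n + 2 := by linarith
          gcongr
        rw [le_div_iff₀ (by positivity)]
        have g5 : M * (d * (((m + 1 : ℕ) : ℝ) + 1) ^ 2) ≤ M * Real.exp (lam + 2 * L) :=
          mul_le_mul_of_nonneg_left g4 (by rw [hM]; positivity)
        refine (g5.trans ?_).trans g3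
        rw [hM, hr1, ← Real.exp_add, ← Real.exp_add, Real.exp_le_exp]
        nlinarith
      have g6 := Pool.Agent.Y405.TY.t d c₀ z (n + 1) hd hmmp hyp (n + 1)
        (Finset.mem_Icc.2 ⟨by omega, le_rfl⟩)
      refine g6.trans ?_
      rw [hM]
      exact mul_le_mul (hsum (n + 1) (Finset.mem_Icc.2 ⟨by omega, le_rfl⟩)) hz.le (norm_nonneg _)
        (Real.exp_pos _).le
    rw [mem_ball_iff_norm] at hc
    have hc4 : c ∈ ball c₀ (r1 / 4) := by
      rw [mem_ball_iff_norm]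
      refine hc.trans_le ?_
      have : r1 / 4 = Real.exp (-(n * (lam + δ / 2)) - Real.log 4) := by
        rw [Real.exp_sub, Real.exp_log (by norm_num), hr1]
      rw [this, Real.exp_le_exp]
      nlinarith
    have g7 := deriv_var (differentiable_P d (n + 1)) hr1p hbd hc4
    refine g7.trans ?_
    have g8 : 16 * M / r1 ^ 2 * ‖c - c₀‖ ≤ 16 * M / r1 ^ 2 * Real.exp (-(n * (lam + δ))) :=
      mul_le_mul_of_nonneg_left hc.le (by rw [hM]; positivity)
    refine g8.trans ?_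
    have g9 : 16 * M / r1 ^ 2 * Real.exp (-(n * (lam + δ))) =
        Real.exp (Real.log 16 + (Real.log 3 + (n * (lam + ε) + K) + (L + K)) +
          n * (lam + δ / 2) - n * (lam + δ)) := by
      have e1 : 16 * M / r1 ^ 2 = 16 * Real.exp (Real.log 3 + (n * (lam + ε) + K) + (L + K)) / r1 := by
        rw [hM]
        field_simp
      rw [e1, hr1, Real.exp_sub, Real.exp_add (Real.log 16 + _), Real.exp_add (Real.log 16),
        Real.exp_log (by norm_num), Real.exp_neg, Real.exp_neg]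
      field_simp
    rw [g9]
    have g10 : Real.exp (n * (lam - ε) - K + Real.log (‖R‖ / 4)) ≤
        ‖deriv (P d (n + 1)) c₀‖ / 2 := by
      have e1 : Real.log (‖R‖ / 4) = Real.log (‖R‖ / 2) - Real.log 2 := by
        rw [← Real.log_div (by positivity) (by norm_num)]
        congr 1
        ring
      have e2 : Real.exp (n * (lam - ε) - K + Real.log (‖R‖ / 4)) =
          Real.exp (n * (lam - ε) - K + Real.log (‖R‖ / 2)) / 2 := by
        rw [e1, ← add_sub_assoc, Real.exp_sub, Real.exp_log (by norm_num)]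
      rw [e2]
      linarith
    refine le_trans ?_ g10
    rw [Real.exp_le_exp]
    have l48' : Real.log 16 + Real.log 3 = Real.log 48 := by
      rw [← Real.log_mul (by norm_num) (by norm_num)]
      norm_num
    nlinarith
  · refine le_trans ?_ hDlow
    rw [Real.exp_le_exp]
    nlinarith
  · refine hDup.trans ?_
    rw [Real.exp_le_exp]
    nlinarith
  · rw [hdit]
    refine le_trans ?_ (hMlow n)
    rw [Real.exp_le_exp]
    nlinarith
  · rw [hdit]
    refine (hMup n).trans ?_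
    rw [Real.exp_le_exp]
    nlinarith

end Pool.Agent.Y232.LC2
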